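import Pool.Agent.Y651.LM.Low2
import Pool.Agent.Y651.LM.Deg
import Pool.Agent.Y651.LM.Geo
import Pool.Agent.Y651.LM.Tie

/-!
# An LCL problem with LOCAL complexity of order `log n` on a class of graphs of quadratic growth

There are a class `F` of connected graphs of maximum degree at most four in which every ball of radius
`r` has at most `12 (r+1)^2` vertices, and an LCL problem with two outputs and radius two, such that on
`F` the problem is solved by a deterministic LOCAL algorithm, and also by a randomized one, of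
complexity `1 + log_2 n`, while every deterministic LOCAL algorithm needs at least `(log_2 n - 24) / 8`
rounds for infinitely many `n`; in particular its deterministic complexity is not `O(log^* n)`.
So the answer to the question, stated for every class of graphs of bounded degree and
subexponential growth, is no; the class of the example is closed under isomorphism, but not under passing to
induced subgraphs (nor under enlarging the graph away from a ball).

The class: `m ≥ 2` cycles of the same even length `L ≥ 4`, where `2 ^ L ≤ n = m L`, put on a string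
(the vertices `0` of consecutive cycles are joined by an edge).  The problem: the ends of an edge have
different outputs if one of them has degree two; i.e. every one of the cycles is properly coloured with
two colours.

The LOCAL model of the problem file is defined in `Pool/Agent/Y651/LM/Defs.lean`: balls, isomorphisms of
labelled balls (`SameView`), LCL problems (`LCL`), deterministic algorithms with identifiers from
`{1, …, n ^ c}` (`DetSolves`) and randomized algorithms with infinite sequences of fair coins and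
success probability at least `1 - n ^ (-d)` (`RandSolves`).
-/

open scoped Classical
open MeasureTheory Filter

namespace Pool.Agent.Results.MP_e442af_lc.NonHereditaryClass

open Pool.Agent.Y651.LM

/-- bounded degree and subexponential growth, as in the problem file -/
def SubexponentialGrowth (F : GraphClass) : Prop :=
  ∃ (Δ : ℕ) (f : ℕ → ℕ), Tendsto (fun r : ℕ => Real.log (f r) / r) atTop (nhds 0) ∧
    ∀ n, ∀ G ∈ F n, ∀ v, (G.neighborSet v).ncard ≤ Δ ∧ ∀ r, (ball G v r).ncard ≤ f r

lemma tendsto_growth :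
    Tendsto (fun r : ℕ => Real.log ((12 * (r + 1) ^ 2 : ℕ) : ℝ) / r) atTop (nhds 0) := by
  have h1 : Tendsto (fun r : ℕ => Real.log ((r : ℝ) + 1) / ((r : ℝ) + 1)) atTop (nhds 0) := by
    have h2 : Tendsto (fun x : ℝ => Real.log x / x) atTop (nhds 0) := by
      have := Real.isLittleO_log_id_atTop.tendsto_div_nhds_zero
      simpa using this
    exact h2.comp (tendsto_atTop_add_const_right _ _ tendsto_natCast_atTop_atTop)
  have h3 : Tendsto (fun r : ℕ => Real.log 12 / (r : ℝ) + 2 * (Real.log ((r : ℝ) + 1) / ((r : ℝ) + 1)) *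
      (1 + 1 / (r : ℝ))) atTop (nhds (0 + 2 * 0 * (1 + 0))) := by
    refine Tendsto.add (tendsto_const_div_atTop_nhds_zero_nat _) (Tendsto.mul (h1.const_mul 2) ?_)
    exact tendsto_const_nhds.add tendsto_one_div_atTop_nhds_zero_nat
  simp only [mul_zero, add_zero, zero_mul] at h3
  refine h3.congr' ?_
  filter_upwards [eventually_ge_atTop 1] with r hr
  have hr0 : (0 : ℝ) < r := by exact_mod_cast hr
  have e : Real.log ((12 * (r + 1) ^ 2 : ℕ) : ℝ) = Real.log 12 + 2 * Real.log ((r : ℝ) + 1) := by
    push_cast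
    rw [Real.log_mul (by norm_num) (by positivity), Real.log_pow]
    push_cast
    ring
  rw [e]
  field_simp

theorem det_upper (c : ℕ) : DetSolves strings colouring c fun n => Nat.log 2 n + 1 := by
  refine ⟨fun n G x v => alg (Nat.log 2 n) G x v, ?_, ?_⟩
  · intro n G G' x x' v v' φ _ _ _ _ h
    exact alg_local h
  · intro n G x hG hx v
    exact alg_strings deg hG x hx.1 v

theorem rand_upper (d : ℕ) : RandSolves strings colouring d fun n => Nat.log 2 n + 1 := by
  refine ⟨fun n G x v => alg (Nat.log 2 n) G (fun u => toLex (x u)) v, ?_, ?_⟩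
  · intro n G G' x x' v v' φ h
    refine alg_local (φ := φ) ⟨h.root, h.bij, h.adj, fun a ha => ?_⟩
    rw [h.lab a ha]
  · intro n G hG
    have h0 : bits n {w | ¬ ∀ v, colouring.allowed n G (fun v => alg (Nat.log 2 n) G
        (fun u => toLex (fun k => w (u, k))) v) v} = 0 := by
      refine measure_mono_null ?_ (tie n)
      intro w hw hinj
      apply hw
      intro v
      exact alg_strings deg hG (fun u => toLex (fun k => w (u, k)))
        (fun a b e => hinj (toLex.injective e)) v
    rw [h0]
    exact bot_le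

theorem result : ∃ (F : GraphClass) (P : LCL),
    (∀ n (G H : SimpleGraph (Fin n)), G ∈ F n → Nonempty (G ≃g H) → H ∈ F n) ∧
    (∀ n, ∀ G ∈ F n, G.Connected) ∧
    (∀ n, ∀ G ∈ F n, ∀ v, (G.neighborSet v).ncard ≤ 4 ∧
      ∀ r, (ball G v r).ncard ≤ 12 * (r + 1) ^ 2) ∧
    SubexponentialGrowth F ∧
    (∀ c, DetSolves F P c fun n => Nat.log 2 n + 1) ∧
    (∀ d, RandSolves F P d fun n => Nat.log 2 n + 1) ∧
    ∀ c, 1 ≤ c → ∀ t, DetSolves F P c t →
      (∀ N, ∃ n, N ≤ n ∧ (F n).Nonempty ∧ Nat.log 2 n ≤ 8 * t n + 24) ∧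
      ¬ ∃ C N : ℕ, ∀ n, N ≤ n → t n ≤ C * (logStar n + 1) := by
  have hgrow : ∀ n, ∀ G ∈ strings n, ∀ v, (G.neighborSet v).ncard ≤ 4 ∧
      ∀ r, (ball G v r).ncard ≤ 12 * (r + 1) ^ 2 := by
    rintro n G ⟨m, L, hm, hL, hev, hn, hpow, ⟨e⟩⟩ v
    obtain ⟨h1, h2, h3⟩ := geo m L hm hL
    constructor
    · have hN : (necklace m L).neighborSet (e v) = e '' G.neighborSet v := by
        ext w
        simp only [SimpleGraph.mem_neighborSet, Set.mem_image]
        constructor
        · intro h
          refine ⟨e.symm w, ?_, by simp⟩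
          rw [← e.map_adj_iff]; simpa using h
        · rintro ⟨u, hu, rfl⟩
          rwa [e.map_adj_iff]
      have := h2 (e v)
      rw [hN, Set.ncard_image_of_injective _ e.injective] at this
      exact this
    · intro r
      have h4 := (sameView_iso e (fun _ => 0) v r).bij
      have := h3 (e v) r
      rw [← h4.image_eq, Set.InjOn.ncard_image h4.injOn] at this
      exact this
  have hmem : ∀ m L : ℕ, 2 ≤ m → 4 ≤ L → Even L → 2 ^ L ≤ m * L → (strings (m * L)).Nonempty := by
    intro m L hm hL hev hpow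
    exact ⟨(necklace m L).comap finProdFinEquiv.symm, m, L, hm, hL, hev, rfl, hpow,
      ⟨SimpleGraph.Iso.comap finProdFinEquiv.symm _⟩⟩
  -- the sizes `n = 2 ^ L * L`
  have hsize : ∀ L : ℕ, 4 ≤ L → 2 ≤ 2 ^ L ∧ 2 ^ L ≤ 2 ^ L * L ∧ L ≤ 2 ^ L * L ∧
      Nat.log 2 (2 ^ L * L) < 2 * L := by
    intro L hL
    have h1 : 2 ^ 1 ≤ 2 ^ L := Nat.pow_le_pow_right (by norm_num) (by omega)
    refine ⟨by simpa using h1, Nat.le_mul_of_pos_right _ (by omega),
      Nat.le_mul_of_pos_left _ (by positivity), ?_⟩
    apply Nat.log_lt_of_lt_pow (by positivity)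
    rw [two_mul, pow_add]
    exact Nat.mul_lt_mul_of_pos_left Nat.lt_two_pow_self (by positivity)
  refine ⟨strings, colouring, ?_, ?_, hgrow, ⟨4, fun r => 12 * (r + 1) ^ 2, tendsto_growth, hgrow⟩,
    det_upper, rand_upper, ?_⟩
  · rintro n G H ⟨m, L, hm, hL, hev, hn, hpow, ⟨e⟩⟩ ⟨f⟩
    exact ⟨m, L, hm, hL, hev, hn, hpow, ⟨f.symm.trans e⟩⟩
  · rintro n G ⟨m, L, hm, hL, hev, hn, hpow, ⟨e⟩⟩
    rw [e.connected_iff]
    exact (geo m L hm hL).1
  · intro c hc t ht
    have hlow : ∀ L : ℕ, 4 ≤ L → Even L → L < 4 * t (2 ^ L * L) + 12 := by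
      intro L hL hev
      obtain ⟨h1, h2, h3, h4⟩ := hsize L hL
      exact lower deg hc ht h1 hL hev h2
    constructor
    · intro N
      have hL : 4 ≤ 2 * (N + 2) := by omega
      have hev : Even (2 * (N + 2)) := even_two_mul _
      obtain ⟨h1, h2, h3, h4⟩ := hsize _ hL
      refine ⟨2 ^ (2 * (N + 2)) * (2 * (N + 2)), by omega, hmem _ _ h1 hL hev h2, ?_⟩
      have := hlow _ hL hev
      omega
    · rintro ⟨C, N, hC⟩
      -- `L = 2 ^ j` with `j = 16 (C + N + 1)`
      set j := 16 * (C + N + 1) with hj
      have hexp : ∀ i : ℕ, 16 ≤ i → i ^ 2 + i + 12 ≤ 2 ^ i := by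
        intro i hi
        induction i, hi using Nat.le_induction with
        | base => norm_num
        | succ i hi ih =>
          rw [pow_succ 2 i]
          nlinarith
      have hjj := hexp j (by omega)
      have hjL : j < 2 ^ j := Nat.lt_two_pow_self
      have hL : 4 ≤ 2 ^ j := by omega
      have hev : Even (2 ^ j) := by
        rw [Nat.even_pow]; exact ⟨even_two, by omega⟩
      obtain ⟨h1, h2, h3, h4⟩ := hsize _ hL
      have h5 := hlow _ hL hev
      have h6 := hC (2 ^ 2 ^ j * 2 ^ j) (by omega)
      have h7 := logStarBound (2 ^ 2 ^ j * 2 ^ j)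
      have h8 : Nat.log 2 (Nat.log 2 (2 ^ 2 ^ j * 2 ^ j)) ≤ j + 1 := by
        apply Nat.lt_succ_iff.1
        by_cases h0 : Nat.log 2 (2 ^ 2 ^ j * 2 ^ j) = 0
        · rw [h0]; simp
        · apply Nat.log_lt_of_lt_pow h0
          calc Nat.log 2 (2 ^ 2 ^ j * 2 ^ j) < 2 * 2 ^ j := h4
            _ ≤ 2 ^ (j + 2) := by rw [pow_add]; omega
      have h9 : C * (logStar (2 ^ 2 ^ j * 2 ^ j) + 1) ≤ C * (j + 4) :=
        Nat.mul_le_mul_left _ (by omega)
      have h10 : 4 * (C * (j + 4)) ≤ j ^ 2 + j := by nlinarith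
      omega

end Pool.Agent.Results.MP_e442af_lc.NonHereditaryClass
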